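import Mathlib
import Pool.Agent.R294.COC9

/-!
# Cohomologous simple cocycles on an open set of pairs
-/

open MeasureTheory Set
open scoped Manifold ContDiff
open Pool.Agent.R294.COC

namespace Pool.Agent.Results.MP_75613c_an.Cohomologous

/-- Simple functions with respect to the partition with cells `{x | c x = i}`, `i : ι`, are the
functions `x ↦ p (c x)` with `p : ι → G`.  The set of pairs `(p, q)` of simple functions whose
`G`-extensions of `T` are measurably cohomologous. -/
def cohomologousPairs {X ι G : Type} [MeasurableSpace X] [Group G] [MeasurableSpace G]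
    (μ : Measure X) (T : X → X) (c : X → ι) : Set ((ι → G) × (ι → G)) :=
  {P | ∃ f : X → G, Measurable f ∧ ∀ᵐ x ∂μ, P.2 (c x) = f (T x) * P.1 (c x) * (f x)⁻¹}

/-- There are a compact connected Lie group `G` of dimension 3, an ergodic automorphism `T` of a
probability space and a measurable partition into two sets such that the set of pairs of simple
functions with measurably cohomologous `G`-extensions contains a nonempty open set, and so has
positive Haar measure. -/
theorem result :
    ∃ (G : Type) (_ : TopologicalSpace G) (_ : Group G)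
      (_ : ChartedSpace (EuclideanSpace ℝ (Fin 3)) G) (_ : LieGroup (𝓡 3) ω G)
      (_ : T2Space G) (_ : CompactSpace G) (_ : ConnectedSpace G)
      (_ : MeasurableSpace G) (_ : BorelSpace G)
      (X : Type) (_ : MeasurableSpace X) (_ : StandardBorelSpace X)
      (μ : Measure X) (_ : IsProbabilityMeasure μ) (_ : NullSingletonClass μ)
      (T : X ≃ᵐ X) (c : X → Fin 2),
      Ergodic T μ ∧ Measurable c ∧
      (∃ W : Set ((Fin 2 → G) × (Fin 2 → G)), IsOpen W ∧ W.Nonempty ∧
        W ⊆ cohomologousPairs μ T c) ∧
      ∀ m : Measure G, m.IsHaarMeasure →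
        0 < ((Measure.pi fun _ : Fin 2 => m).prod (Measure.pi fun _ : Fin 2 => m))
          (cohomologousPairs μ T c) := by
  have sub : Pool.Agent.R294.COC.US ×ˢ Pool.Agent.R294.COC.US ⊆
      cohomologousPairs haar (fun x => (MeasurableEquiv.addLeft (1 : ℤ_[5])) x) colour := by
    rintro ⟨P, P'⟩ ⟨hP, hP'⟩
    exact coh hP hP'
  have op : IsOpen (US ×ˢ US) := isOpen_US.prod isOpen_US
  have ne : (US ×ˢ US).Nonempty := US_nonempty.prod US_nonempty
  refine ⟨S3, inferInstance, inferInstance, inferInstance, lieS3, inferInstance, inferInstance,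
    inferInstance, inferInstance, inferInstance, ℤ_[5], inferInstance, inferInstance, haar,
    inferInstance, inferInstance, MeasurableEquiv.addLeft (1 : ℤ_[5]), colour, erg_add,
    measurable_colour, ⟨US ×ˢ US, op, ne, sub⟩, ?_⟩
  intro m hm
  have : IsFiniteMeasure m := inferInstance
  exact lt_of_lt_of_le (op.measure_pos _ ne) (measure_mono sub)

end Pool.Agent.Results.MP_75613c_an.Cohomologous
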